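import Pool.Agent.T6.H3.SigThree.A

open Finset

namespace H3.SigThree

/-- pairing of divisors -/
lemma pairing (n : ℕ) (hn : 0 < n) (P : ℕ → Prop) [DecidablePred P]
    (hP : ∀ d e, d * e = n → (P e ↔ ¬ P d)) :
    ArithmeticFunction.sigma 3 n =
      ∑ d ∈ n.divisors.filter P, (d^3 + (n/d)^3) := by
  rw [ArithmeticFunction.sigma_apply, ← Finset.sum_filter_add_sum_filter_not n.divisors P,
    Finset.sum_add_distrib]
  congr 1
  refine Finset.sum_nbij' (fun d => n/d) (fun d => n/d) ?_ ?_ ?_ ?_ ?_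
  · intro d hd
    rw [mem_filter, Nat.mem_divisors] at hd ⊢
    obtain ⟨⟨⟨e, rfl⟩, hn0⟩, hd2⟩ := hd
    have hd0 : 0 < d := Nat.pos_of_mul_pos_right hn
    rw [Nat.mul_div_cancel_left e hd0]
    exact ⟨⟨Dvd.intro_left d rfl, hn0⟩, (hP d e rfl).2 hd2⟩
  · intro d hd
    rw [mem_filter, Nat.mem_divisors] at hd ⊢
    obtain ⟨⟨⟨e, rfl⟩, hn0⟩, hd2⟩ := hd
    have hd0 : 0 < d := Nat.pos_of_mul_pos_right hn
    rw [Nat.mul_div_cancel_left e hd0]
    exact ⟨⟨Dvd.intro_left d rfl, hn0⟩, fun h => (hP d e rfl).1 h hd2⟩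
  · intro d hd
    rw [mem_filter, Nat.mem_divisors] at hd
    exact Nat.div_div_self hd.1.1 hd.1.2
  · intro d hd
    rw [mem_filter, Nat.mem_divisors] at hd
    exact Nat.div_div_self hd.1.1 hd.1.2
  · intro d hd
    rw [mem_filter, Nat.mem_divisors] at hd
    rw [Nat.div_div_self hd.1.1 hd.1.2]

lemma nine_dvd (n : ℕ) (h : n % 3 = 2) : 9 ∣ ArithmeticFunction.sigma 3 n := by
  have hn : 0 < n := by omega
  rw [pairing n hn (fun d => d % 3 = 1) ?_]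
  · refine Finset.dvd_sum fun d hd => ?_
    rw [mem_filter, Nat.mem_divisors] at hd
    obtain ⟨⟨⟨e, rfl⟩, hn0⟩, hd2⟩ := hd
    have hd0 : 0 < d := Nat.pos_of_mul_pos_right hn
    rw [Nat.mul_div_cancel_left e hd0]
    have he : e % 3 = 2 := by
      have := Nat.mul_mod d e 3
      rw [h, hd2] at this
      omega
    obtain ⟨a, rfl⟩ : ∃ a, d = 3*a+1 := ⟨d/3, by omega⟩
    obtain ⟨b, rfl⟩ : ∃ b, e = 3*b+2 := ⟨e/3, by omega⟩
    exact ⟨3*a^3+3*a^2+a+3*b^3+6*b^2+4*b+1, by ring⟩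
  · intro d e hde
    have := Nat.mul_mod d e 3
    rw [hde, h] at this
    have h1 : d % 3 = 0 ∨ d % 3 = 1 ∨ d % 3 = 2 := by omega
    have h2 : e % 3 = 0 ∨ e % 3 = 1 ∨ e % 3 = 2 := by omega
    rcases h1 with h1|h1|h1 <;> rcases h2 with h2|h2|h2 <;> rw [h1, h2] at this <;> omega

lemma four_dvd (n : ℕ) (h : n % 4 = 3) : 4 ∣ ArithmeticFunction.sigma 3 n := by
  have hn : 0 < n := by omega
  rw [pairing n hn (fun d => d % 4 = 1) ?_]
  · refine Finset.dvd_sum fun d hd => ?_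
    rw [mem_filter, Nat.mem_divisors] at hd
    obtain ⟨⟨⟨e, rfl⟩, hn0⟩, hd2⟩ := hd
    have hd0 : 0 < d := Nat.pos_of_mul_pos_right hn
    rw [Nat.mul_div_cancel_left e hd0]
    have he : e % 4 = 3 := by
      have := Nat.mul_mod d e 4
      rw [h, hd2] at this
      omega
    obtain ⟨a, rfl⟩ : ∃ a, d = 4*a+1 := ⟨d/4, by omega⟩
    obtain ⟨b, rfl⟩ : ∃ b, e = 4*b+3 := ⟨e/4, by omega⟩
    exact ⟨16*a^3+12*a^2+3*a+16*b^3+36*b^2+27*b+7, by ring⟩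
  · intro d e hde
    have := Nat.mul_mod d e 4
    rw [hde, h] at this
    have h1 : d % 4 = 0 ∨ d % 4 = 1 ∨ d % 4 = 2 ∨ d % 4 = 3 := by omega
    have h2 : e % 4 = 0 ∨ e % 4 = 1 ∨ e % 4 = 2 ∨ e % 4 = 3 := by omega
    rcases h1 with h1|h1|h1|h1 <;> rcases h2 with h2|h2|h2|h2 <;> rw [h1, h2] at this <;> omega

end H3.SigThree
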