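import Pool.Agent.T6.H3.SigThree.D

open Finset

namespace H3.SigThree

/-- all primes `p ∣ n`, `q ∣ n + 2` -/
lemma size_all (n p q : ℕ) (hn8 : 8000 ≤ n) (hodd : n % 2 = 1)
    (hp : p.Prime) (hq : q.Prime) (hpn : p ∣ n) (hqn : q ∣ n + 2)
    (h : ArithmeticFunction.sigma 3 n = ArithmeticFunction.sigma 3 (n+2)) :
    (p * q)^3 ≤ 9 * (n^2 * (n+2)^3) := by
  obtain ⟨m, hm⟩ := hpn
  obtain ⟨m', hm'⟩ := hqn
  have hple : p ≤ n := Nat.le_of_dvd (by omega) ⟨m, hm⟩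
  have hqle : q ≤ n + 2 := Nat.le_of_dvd (by omega) ⟨m', hm'⟩
  by_cases hpm : p ∣ m
  · have h1 : p * p ≤ n := by
      obtain ⟨c, rfl⟩ := hpm
      refine Nat.le_of_dvd (by omega) ⟨c, by rw [hm]; ring⟩
    calc (p*q)^3 = (p*p)*p*q^3 := by ring
      _ ≤ n * n * (n+2)^3 := Nat.mul_le_mul (Nat.mul_le_mul h1 hple) (Nat.pow_le_pow_left hqle 3)
      _ ≤ 9 * (n^2 * (n+2)^3) := by nlinarith [Nat.zero_le (n^2 * (n+2)^3)]
  by_cases hqm : q ∣ m'
  · have h1 : q * q ≤ n + 2 := by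
      obtain ⟨c, rfl⟩ := hqm
      refine Nat.le_of_dvd (by omega) ⟨c, by rw [hm']; ring⟩
    calc (p*q)^3 = p^3 * ((q*q)*q) := by ring
      _ ≤ n^3 * ((n+2)*(n+2)) := Nat.mul_le_mul (Nat.pow_le_pow_left hple 3) (Nat.mul_le_mul h1 hqle)
      _ ≤ 9 * (n^2 * (n+2)^3) := by
        have : n^3 * ((n+2)*(n+2)) = n^2 * ((n+2)^2 * n) := by ring
        rw [this]
        have h2 : (n+2)^2 * n ≤ (n+2)^3 := by
          rw [pow_succ (n+2) 2]; exact Nat.mul_le_mul_left _ (by omega)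
        have := Nat.mul_le_mul_left (n^2) h2
        omega
  have hs := size_bound n m p m' q hn8 hodd hp hq hpm hqm (by rw [hm]; ring) (by rw [hm']; ring) h
  have e : (n*(n+2))^3 = (p*q)^3 * (m*m')^3 := by
    rw [hm', hm]; ring
  have h1 : n * (p*q)^3 ≤ n * (9 * (n^2 * (n+2)^3)) :=
    calc n * (p*q)^3 ≤ 9 * (m*m')^3 * (p*q)^3 := Nat.mul_le_mul_right _ hs
      _ = 9 * (n*(n+2))^3 := by rw [e]; ring
      _ = n * (9 * (n^2 * (n+2)^3)) := by ring
  exact Nat.le_of_mul_le_mul_left h1 (by omega)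

/-- at most three solutions for a pair of cofactors -/
lemma fiber (a b : ℕ) (hab : 0 < a ∧ 0 < b) (S : Finset ℕ)
    (hS : ∀ n ∈ S, ∃ p q : ℕ, p.Prime ∧ q.Prime ∧ ¬ p ∣ a ∧ ¬ q ∣ b ∧ n = a * p ∧ n + 2 = b * q ∧
      ArithmeticFunction.sigma 3 n = ArithmeticFunction.sigma 3 (n+2)) : S.card ≤ 3 := by
  set A : ℤ := ((ArithmeticFunction.sigma 3 a : ℕ) : ℤ) with hAdef
  set B : ℤ := ((ArithmeticFunction.sigma 3 b : ℕ) : ℤ) with hBdef
  have hB : 0 < B := by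
    have := sig_ge b hab.2
    have h2 : 0 < b^3 := pow_pos hab.2 3
    rw [hBdef]; exact_mod_cast lt_of_lt_of_le h2 this
  let F : Polynomial ℤ := Polynomial.C (A * (b:ℤ)^3 - B * (a:ℤ)^3) * Polynomial.X^3 +
    Polynomial.C (-(6 * B * (a:ℤ)^3)) * Polynomial.X^2 +
    Polynomial.C (-(12 * B * (a:ℤ)^3)) * Polynomial.X +
    Polynomial.C (-(8 * B * (a:ℤ)^3 + (B - A) * ((a:ℤ)^3 * (b:ℤ)^3)))
  have hdeg : F.natDegree ≤ 3 := Polynomial.natDegree_cubic_le
  have hF : F ≠ 0 := by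
    intro h0
    have : F.coeff 2 = 0 := by rw [h0]; simp
    simp only [F, Polynomial.coeff_add, Polynomial.coeff_C_mul, Polynomial.coeff_X_pow,
      Polynomial.coeff_X, Polynomial.coeff_C] at this
    norm_num at this
    rcases this with h | h
    · exact hB.ne' h
    · have : 0 < a := hab.1
      omega
  have hroots : ∀ n ∈ S, (n:ℤ) ∈ F.roots.toFinset := by
    intro n hn
    obtain ⟨p, q, hp, hq, hpa, hqb, h1, h2, h3⟩ := hS n hn
    rw [Multiset.mem_toFinset, Polynomial.mem_roots hF, Polynomial.IsRoot.def]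
    have hid := identity_n n a p b q hp hq hpa hqb h1 h2 h3
    simp only [F, Polynomial.eval_add, Polynomial.eval_mul, Polynomial.eval_C,
      Polynomial.eval_pow, Polynomial.eval_X]
    rw [← hAdef, ← hBdef] at hid
    linear_combination hid
  calc S.card = (S.image (fun n : ℕ => (n:ℤ))).card := by
        rw [Finset.card_image_of_injective _ Nat.cast_injective]
    _ ≤ F.roots.toFinset.card := by
        refine Finset.card_le_card fun x hx => ?_
        obtain ⟨n, hn, rfl⟩ := Finset.mem_image.1 hx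
        exact hroots n hn
    _ ≤ Multiset.card F.roots := Multiset.toFinset_card_le _
    _ ≤ F.natDegree := Polynomial.card_roots' F
    _ ≤ 3 := hdeg

lemma count (z : ℕ) (S : Finset ℕ)
    (hS : ∀ n ∈ S, ∃ a b p q : ℕ, p.Prime ∧ q.Prime ∧ ¬ p ∣ a ∧ ¬ q ∣ b ∧ n = a * p ∧
      n + 2 = b * q ∧ a * b ≤ z ∧ 0 < n ∧
      ArithmeticFunction.sigma 3 n = ArithmeticFunction.sigma 3 (n+2)) :
    S.card ≤ 3 * ∑ a ∈ Finset.Icc 1 z, z / a := by
  classical
  let T : Finset (Σ _ : ℕ, ℕ) := (Finset.Icc 1 z).sigma (fun a => Finset.Icc 1 (z/a))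
  have hT : T.card = ∑ a ∈ Finset.Icc 1 z, z / a := by
    simp [T, Finset.card_sigma]
  have hchoose : ∀ n ∈ S, ∃ t ∈ T, ∃ p q : ℕ, p.Prime ∧ q.Prime ∧ ¬ p ∣ t.1 ∧ ¬ q ∣ t.2 ∧
      n = t.1 * p ∧ n + 2 = t.2 * q ∧
      ArithmeticFunction.sigma 3 n = ArithmeticFunction.sigma 3 (n+2) := by
    intro n hn
    obtain ⟨a, b, p, q, hp, hq, hpa, hqb, h1, h2, h3, h4, h5⟩ := hS n hn
    have ha : 0 < a := by
      rcases Nat.eq_zero_or_pos a with h0 | h0
      · rw [h0] at h1; omega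
      · exact h0
    have hb : 0 < b := by
      rcases Nat.eq_zero_or_pos b with h0 | h0
      · rw [h0] at h2; omega
      · exact h0
    refine ⟨⟨a, b⟩, ?_, p, q, hp, hq, hpa, hqb, h1, h2, h5⟩
    simp only [T, Finset.mem_sigma, Finset.mem_Icc]
    refine ⟨⟨ha, (Nat.le_mul_of_pos_right a hb).trans h3⟩, hb, ?_⟩
    rw [Nat.le_div_iff_mul_le ha]
    rw [mul_comm]; exact h3
  choose! f hfT hf using hchoose
  rw [← hT]
  refine Finset.card_le_mul_card_image_of_maps_to (f := f) (fun n hn => hfT n hn) 3 ?_ |>.trans ?_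
  · intro t ht
    have ht' : 0 < t.1 ∧ 0 < t.2 := by
      simp only [T, Finset.mem_sigma, Finset.mem_Icc] at ht
      omega
    refine fiber t.1 t.2 ht' _ ?_
    intro n hn
    rw [Finset.mem_filter] at hn
    have := hf n hn.1
    rw [hn.2] at this
    exact this
  · exact le_refl _

end H3.SigThree
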