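import Mathlib

open Finset

namespace H3.SigThree

/-- `∑_{d ∣ n} 1/d³` -/
noncomputable def s (n : ℕ) : ℚ := ∑ d ∈ n.divisors, (1 : ℚ) / (d:ℚ)^3

lemma sigma_eq (n : ℕ) (hn : 0 < n) :
    ((ArithmeticFunction.sigma 3 n : ℕ) : ℚ) = (n:ℚ)^3 * s n := by
  rw [ArithmeticFunction.sigma_apply]
  push_cast
  rw [← Nat.sum_div_divisors n (fun d => (d:ℚ)^3), s, Finset.mul_sum]
  refine Finset.sum_congr rfl fun d hd => ?_
  obtain ⟨hd, -⟩ := Nat.mem_divisors.1 hd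
  obtain ⟨e, rfl⟩ := hd
  have hd0 : 0 < d := Nat.pos_of_mul_pos_right hn
  rw [Nat.mul_div_cancel_left e hd0]
  have : (d:ℚ) ≠ 0 := by positivity
  push_cast
  field_simp

lemma step (x : ℚ) (hx : 3 ≤ x) :
    1 / x^3 ≤ 1/(4*(x-1)^2) - 1/(4*(x+1)^2) := by
  have h1 : 0 < x - 1 := by linarith
  have h2 : 0 < x + 1 := by linarith
  have h3 : 0 < x := by linarith
  rw [div_sub_div _ _ (by positivity) (by positivity), div_le_div_iff₀ (by positivity) (by positivity)]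
  have : 0 ≤ x^2 := sq_nonneg x
  nlinarith [this, mul_nonneg this (by linarith : 0 ≤ x - 3)]

lemma tail_range (D : ℕ) (hD : 3 ≤ D) (K : ℕ) :
    ∑ k ∈ range K, (1:ℚ) / ((D + 2*k : ℕ):ℚ)^3 ≤
      1/(4*((D:ℚ)-1)^2) - 1/(4*((D:ℚ)+2*K-1)^2) := by
  have hD' : (3:ℚ) ≤ D := by exact_mod_cast hD
  induction K with
  | zero => simp
  | succ K ih =>
    rw [sum_range_succ]
    have h2K : (0:ℚ) ≤ 2*K := by positivity
    have key := step ((D:ℚ) + 2*K) (by linarith)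
    push_cast
    push_cast at ih
    have e : (D:ℚ) + 2 * (K+1) - 1 = (D:ℚ) + 2*K + 1 := by ring
    rw [e]
    linarith

lemma s_le (m D : ℕ) (hD : 3 ≤ D) (hDo : D % 2 = 1) (hm : m % 2 = 1) (S : Finset ℕ)
    (hS : ∀ d ∈ m.divisors, d < D → d ∈ S) :
    s m ≤ ∑ d ∈ S, (1:ℚ)/(d:ℚ)^3 + 1/(4*((D:ℚ)-1)^2) := by
  have h1 : s m = ∑ d ∈ m.divisors.filter (fun d => d < D), (1:ℚ)/(d:ℚ)^3 +
      ∑ d ∈ m.divisors.filter (fun d => ¬ d < D), (1:ℚ)/(d:ℚ)^3 := by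
    rw [s, Finset.sum_filter_add_sum_filter_not]
  rw [h1]
  refine add_le_add ?_ ?_
  · refine Finset.sum_le_sum_of_subset_of_nonneg ?_ (fun _ _ _ => by positivity)
    intro d hd
    rw [Finset.mem_filter] at hd
    exact hS d hd.1 hd.2
  · have hsub : m.divisors.filter (fun d => ¬ d < D) ⊆ (range (m+1)).image (fun k => D + 2*k) := by
      intro d hd
      rw [Finset.mem_filter, Nat.mem_divisors] at hd
      obtain ⟨⟨hd, hm0⟩, hlt⟩ := hd
      have hle : d ≤ m := Nat.le_of_dvd (Nat.pos_of_ne_zero hm0) hd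
      have hodd : d % 2 = 1 := by
        rcases Nat.mod_two_eq_zero_or_one d with h | h
        · exfalso
          have : 2 ∣ m := dvd_trans (Nat.dvd_of_mod_eq_zero h) hd
          omega
        · exact h
      rw [Finset.mem_image]
      refine ⟨(d - D)/2, ?_, ?_⟩
      · rw [Finset.mem_range]; omega
      · omega
    calc ∑ d ∈ m.divisors.filter (fun d => ¬ d < D), (1:ℚ)/(d:ℚ)^3
        ≤ ∑ d ∈ (range (m+1)).image (fun k => D + 2*k), (1:ℚ)/(d:ℚ)^3 :=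
          Finset.sum_le_sum_of_subset_of_nonneg hsub (fun _ _ _ => by positivity)
      _ = ∑ k ∈ range (m+1), (1:ℚ) / ((D + 2*k : ℕ):ℚ)^3 := by
          rw [Finset.sum_image]
          intro a _ b _ hab
          simpa using hab
      _ ≤ 1/(4*((D:ℚ)-1)^2) - 1/(4*((D:ℚ)+2*(m+1 : ℕ)-1)^2) := tail_range D hD (m+1)
      _ ≤ 1/(4*((D:ℚ)-1)^2) := by
          have : (0:ℚ) ≤ 1/(4*((D:ℚ)+2*(m+1 : ℕ)-1)^2) := by positivity
          linarith

lemma le_s (m : ℕ) (T : Finset ℕ) (hT : T ⊆ m.divisors) :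
    ∑ d ∈ T, (1:ℚ)/(d:ℚ)^3 ≤ s m :=
  Finset.sum_le_sum_of_subset_of_nonneg hT (fun _ _ _ => by positivity)

lemma c6 (m : ℕ) (h2 : ¬ 2 ∣ m) (h3 : ¬ 3 ∣ m) : s m ≤ 1013/1000 := by
  have hm : m % 2 = 1 := by omega
  refine (s_le m 25 (by norm_num) (by norm_num) hm {1,5,7,11,13,17,19,23} ?_).trans ?_
  · intro d hd hlt
    obtain ⟨hd, -⟩ := Nat.mem_divisors.1 hd
    have h2' : ¬ 2 ∣ d := fun h => h2 (h.trans hd)
    have h3' : ¬ 3 ∣ d := fun h => h3 (h.trans hd)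
    interval_cases d <;> simp_all
  · norm_num

lemma c30 (m : ℕ) (h2 : ¬ 2 ∣ m) (h3 : ¬ 3 ∣ m) (h5 : ¬ 5 ∣ m) : s m ≤ 1005/1000 := by
  have hm : m % 2 = 1 := by omega
  refine (s_le m 25 (by norm_num) (by norm_num) hm {1,7,11,13,17,19,23} ?_).trans ?_
  · intro d hd hlt
    obtain ⟨hd, -⟩ := Nat.mem_divisors.1 hd
    have h2' : ¬ 2 ∣ d := fun h => h2 (h.trans hd)
    have h3' : ¬ 3 ∣ d := fun h => h3 (h.trans hd)
    have h5' : ¬ 5 ∣ d := fun h => h5 (h.trans hd)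
    interval_cases d <;> simp_all
  · norm_num

lemma c210 (m : ℕ) (h2 : ¬ 2 ∣ m) (h3 : ¬ 3 ∣ m) (h5 : ¬ 5 ∣ m) (h7 : ¬ 7 ∣ m) :
    s m ≤ 10021/10000 := by
  have hm : m % 2 = 1 := by omega
  refine (s_le m 25 (by norm_num) (by norm_num) hm {1,11,13,17,19,23} ?_).trans ?_
  · intro d hd hlt
    obtain ⟨hd, -⟩ := Nat.mem_divisors.1 hd
    have h2' : ¬ 2 ∣ d := fun h => h2 (h.trans hd)
    have h3' : ¬ 3 ∣ d := fun h => h3 (h.trans hd)
    have h5' : ¬ 5 ∣ d := fun h => h5 (h.trans hd)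
    have h7' : ¬ 7 ∣ d := fun h => h7 (h.trans hd)
    interval_cases d <;> simp_all
  · norm_num

lemma s_ge_prime (m p : ℕ) (hm : 0 < m) (hp : 1 < p) (h : p ∣ m) : 1 + 1/(p:ℚ)^3 ≤ s m := by
  refine le_trans (le_of_eq ?_) (le_s m {1, p} ?_)
  · rw [Finset.sum_pair (by omega)]; simp
  · intro d hd
    simp only [Finset.mem_insert, Finset.mem_singleton] at hd
    rw [Nat.mem_divisors]
    rcases hd with rfl | rfl
    · exact ⟨one_dvd _, hm.ne'⟩
    · exact ⟨h, hm.ne'⟩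

lemma s_mul (a b : ℕ) (ha : 0 < a) (hb : 0 < b) (h : Nat.Coprime a b) : s (a*b) = s a * s b := by
  have h1 := sigma_eq (a*b) (Nat.mul_pos ha hb)
  rw [ArithmeticFunction.isMultiplicative_sigma.map_mul_of_coprime h] at h1
  push_cast at h1
  rw [sigma_eq a ha, sigma_eq b hb] at h1
  have ha' : (a:ℚ) ≠ 0 := by positivity
  have hb' : (b:ℚ) ≠ 0 := by positivity
  have : ((a:ℚ) * b)^3 * (s (a*b) - s a * s b) = 0 := by linear_combination -h1
  rcases mul_eq_zero.1 this with h | h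
  · exact absurd h (by positivity)
  · linarith

lemma s_two : s 2 = 9/8 := by
  rw [s, Nat.prime_two.divisors, Finset.sum_pair (by norm_num)]; norm_num

lemma s_two_pow (k : ℕ) : s (2^k) ≤ 8/7 - 1/(7 * 8^k) := by
  rw [s, Nat.sum_divisors_prime_pow Nat.prime_two]
  induction k with
  | zero => norm_num
  | succ k ih =>
    rw [sum_range_succ]
    have : (1:ℚ) / ((2^(k+1) : ℕ) : ℚ)^3 = 1/(8^(k+1)) := by
      push_cast
      rw [← pow_mul, mul_comm (k+1) 3, pow_mul]; norm_num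
    rw [this]
    have h8 : (0:ℚ) < 8^k := by positivity
    have e : (8/7 - 1/(7 * 8^k) : ℚ) + 1/8^(k+1) = 8/7 - 1/(7*8^(k+1)) := by
      rw [pow_succ]; field_simp; ring
    rw [← e]
    linarith

end H3.SigThree
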