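import Pool.Agent.T6.H3.SigThree.A

open Finset

namespace H3.SigThree

/-- almost equal -/
def Near (x y : ℕ) : Prop := s x ≤ 1000751/1000000 * s y ∧ s y ≤ 1000751/1000000 * s x

lemma s_pos (n : ℕ) (hn : 0 < n) : 0 < s n := by
  have := le_s n {1} (by simpa using hn.ne')
  simp at this
  linarith

lemma near (n : ℕ) (hn : 8000 ≤ n)
    (h : ArithmeticFunction.sigma 3 n = ArithmeticFunction.sigma 3 (n+2)) : Near n (n+2) := by
  have h1 := sigma_eq n (by omega)
  have h2 := sigma_eq (n+2) (by omega)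
  rw [h, h2] at h1
  have hs : 0 < s (n+2) := s_pos _ (by omega)
  have hs' : 0 < s n := s_pos _ (by omega)
  have hn' : (8000:ℚ) ≤ n := by exact_mod_cast hn
  push_cast at h1
  have hn3 : (0:ℚ) < (n:ℚ)^3 := by positivity
  constructor
  · have key : ((n:ℚ)+2)^3 ≤ 1000751/1000000 * (n:ℚ)^3 := by
      have e : (n:ℚ) = 8000 + (n - 8000) := by ring
      have h0 : (0:ℚ) ≤ n - 8000 := by linarith
      generalize (n:ℚ) - 8000 = t at e h0
      rw [e]
      nlinarith [pow_nonneg h0 3, pow_nonneg h0 2, h0]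
    have : (n:ℚ)^3 * s n ≤ (n:ℚ)^3 * (1000751/1000000 * s (n+2)) := by
      rw [← h1]
      calc ((n:ℚ)+2)^3 * s (n+2) ≤ (1000751/1000000 * (n:ℚ)^3) * s (n+2) :=
            mul_le_mul_of_nonneg_right key hs.le
        _ = _ := by ring
    exact le_of_mul_le_mul_left this hn3
  · have : (n:ℚ)^3 * s (n+2) ≤ (n:ℚ)^3 * s n := by
      rw [← h1]
      exact mul_le_mul_of_nonneg_right (pow_le_pow_left₀ (by positivity) (by linarith) 3) hs.le
    have := le_of_mul_le_mul_left this hn3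
    linarith

lemma Near.symm {x y : ℕ} (h : Near x y) : Near y x := ⟨h.2, h.1⟩

/-- odd case, one orientation -/
lemma odd_aux (x y : ℕ) (hx : x % 2 = 1) (hxy : x = y + 2 ∨ y = x + 2) (h : Near x y) :
    ¬ 3 ∣ x ∧ (¬ 3 ∣ y → ¬ 5 ∣ x) ∧ (¬ 3 ∣ x → ¬ 3 ∣ y → ¬ 5 ∣ y → ¬ 7 ∣ x) := by
  have hx0 : 0 < x := by omega
  refine ⟨fun h3 => ?_, fun h3 h5 => ?_, fun h3x h3 h5 h7 => ?_⟩
  · have h1 := s_ge_prime x 3 hx0 (by norm_num) h3
    have h2 := c6 y (by omega) (by omega)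
    have := h.1
    norm_num at h1
    linarith
  · have h1 := s_ge_prime x 5 hx0 (by norm_num) h5
    have h2 := c30 y (by omega) h3 (by omega)
    have := h.1
    norm_num at h1
    linarith
  · have h1 := s_ge_prime x 7 hx0 (by norm_num) h7
    have h2 := c210 y (by omega) h3 h5 (by omega)
    have := h.1
    norm_num at h1
    linarith

lemma odd_case (x y : ℕ) (hx : x % 2 = 1) (hxy : x = y + 2 ∨ y = x + 2) (h : Near x y) :
    (¬ 3 ∣ x ∧ ¬ 5 ∣ x ∧ ¬ 7 ∣ x) ∧ (¬ 3 ∣ y ∧ ¬ 5 ∣ y ∧ ¬ 7 ∣ y) := by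
  obtain ⟨a1, a2, a3⟩ := odd_aux x y hx hxy h
  obtain ⟨b1, b2, b3⟩ := odd_aux y x (by omega) (by omega) h.symm
  have ha2 := a2 b1
  have hb2 := b2 a1
  exact ⟨⟨a1, ha2, a3 a1 b1 hb2⟩, ⟨b1, hb2, b3 b1 a1 ha2⟩⟩

/-- even case -/
lemma even_case (x y : ℕ) (hx : x % 4 = 2) (hxy : x = y + 2 ∨ y = x + 2) (hy : 0 < y)
    (h : Near x y) : False := by
  obtain ⟨a, rfl⟩ : ∃ a, x = 2 * a := ⟨x/2, by omega⟩
  have ha : a % 2 = 1 := by omega
  have hco : Nat.Coprime 2 a := by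
    rw [Nat.coprime_two_left, Nat.odd_iff]; exact ha
  have hs : s (2*a) = 9/8 * s a := by rw [s_mul 2 a (by norm_num) (by omega) hco, s_two]
  by_cases h3 : 3 ∣ a
  · -- upper bound for `y`
    have h1 := s_ge_prime a 3 (by omega) (by norm_num) h3
    have h3y : ¬ 3 ∣ y := by omega
    obtain ⟨k, m, hm, rfl⟩ := Nat.exists_eq_two_pow_mul_odd hy.ne'
    have hm2 : m % 2 = 1 := Nat.odd_iff.1 hm
    have hco2 : Nat.Coprime (2^k) m := Nat.Coprime.pow_left k (Nat.coprime_two_left.2 hm)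
    have hs2 : s (2^k*m) = s (2^k) * s m := s_mul _ _ (by positivity) (by omega) hco2
    have h4 := c6 m (by omega) (fun hh => h3y (hh.mul_left _))
    have h5 : s (2^k) ≤ 8/7 := by
      have h6 := s_two_pow k
      have : (0:ℚ) ≤ 1/(7*8^k) := by positivity
      linarith
    have h6 : s (2^k*m) ≤ 8/7 * (1013/1000) := by
      rw [hs2]
      exact mul_le_mul h5 h4 (s_pos m (by omega)).le (by norm_num)
    have := h.1
    norm_num at h1
    linarith
  · have h1 := c6 a (by omega) h3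
    have h2 : 1 + 1/8 + 1/64 ≤ s y := by
      refine le_trans (le_of_eq ?_) (le_s y {1,2,4} ?_)
      · norm_num
      · intro d hd
        simp only [Finset.mem_insert, Finset.mem_singleton] at hd
        rw [Nat.mem_divisors]
        have : 4 ∣ y := by omega
        rcases hd with rfl | rfl | rfl
        · exact ⟨one_dvd _, hy.ne'⟩
        · exact ⟨by omega, hy.ne'⟩
        · exact ⟨this, hy.ne'⟩
    have := h.2
    rw [hs] at this
    linarith

lemma structure_large (n : ℕ) (hn : 8000 ≤ n)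
    (h : ArithmeticFunction.sigma 3 n = ArithmeticFunction.sigma 3 (n+2)) :
    Nat.Coprime (n * (n+2)) 210 ∧ n % 6 = 5 := by
  have hN := near n hn h
  have hodd : n % 2 = 1 := by
    by_contra hc
    rcases (by omega : n % 4 = 2 ∨ (n+2) % 4 = 2) with h1 | h1
    · exact even_case n (n+2) h1 (by omega) (by omega) hN
    · exact even_case (n+2) n h1 (by omega) (by omega) hN.symm
  obtain ⟨⟨a3, a5, a7⟩, ⟨b3, b5, b7⟩⟩ := odd_case n (n+2) hodd (by omega) hN
  have hn3 : n % 3 = 2 := by omega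
  refine ⟨?_, by omega⟩
  have e : (210:ℕ) = 2*3*5*7 := by norm_num
  have key : ∀ m : ℕ, m % 2 = 1 → ¬ 3 ∣ m → ¬ 5 ∣ m → ¬ 7 ∣ m → Nat.Coprime m 210 := by
    intro m h2 h3 h5 h7
    rw [e]
    refine Nat.Coprime.mul_right (Nat.Coprime.mul_right (Nat.Coprime.mul_right ?_ ?_) ?_) ?_
    · rw [Nat.coprime_two_right, Nat.odd_iff]; exact h2
    · exact ((Nat.Prime.coprime_iff_not_dvd Nat.prime_three).2 h3).symm
    · exact ((Nat.Prime.coprime_iff_not_dvd Nat.prime_five).2 h5).symm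
    · exact ((Nat.Prime.coprime_iff_not_dvd (by norm_num : Nat.Prime 7)).2 h7).symm
  exact Nat.Coprime.mul_left (key n hodd a3 a5 a7) (key (n+2) (by omega) b3 b5 b7)

end H3.SigThree
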