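import Pool.Agent.T6.H3.SigThree.A

open Finset

namespace H3.SigThree

lemma sig_ge (m : ℕ) (hm : 0 < m) : m^3 ≤ ArithmeticFunction.sigma 3 m := by
  rw [ArithmeticFunction.sigma_apply]
  exact Finset.single_le_sum (f := fun d => d^3) (fun _ _ => Nat.zero_le _)
    (Nat.mem_divisors_self m hm.ne')

lemma sig_gt (m : ℕ) (hm : 1 < m) : m^3 < ArithmeticFunction.sigma 3 m := by
  rw [ArithmeticFunction.sigma_apply]
  have : ({1, m} : Finset ℕ) ⊆ m.divisors := by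
    intro d hd
    simp only [Finset.mem_insert, Finset.mem_singleton] at hd
    rw [Nat.mem_divisors]
    rcases hd with rfl | rfl
    · exact ⟨one_dvd _, by omega⟩
    · exact ⟨dvd_refl _, by omega⟩
  have h2 := Finset.sum_le_sum_of_subset_of_nonneg (f := fun d => d^3) this (fun _ _ _ => Nat.zero_le _)
  rw [Finset.sum_pair (by omega)] at h2
  omega

/-- `σ_3(m) ≤ 5/4 m³` : crude -/
lemma sig_le (m : ℕ) (hm : 0 < m) : 4 * ArithmeticFunction.sigma 3 m ≤ 5 * m^3 := by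
  have h1 := sigma_eq m hm
  have hs : s m ≤ 5/4 := by
    obtain ⟨k, a, ha, rfl⟩ := Nat.exists_eq_two_pow_mul_odd hm.ne'
    have ha2 : a % 2 = 1 := Nat.odd_iff.1 ha
    have hco2 : Nat.Coprime (2^k) a := Nat.Coprime.pow_left k (Nat.coprime_two_left.2 ha)
    rw [s_mul _ _ (by positivity) (by omega) hco2]
    have h2 : s (2^k) ≤ 8/7 := by
      have h6 := s_two_pow k
      have : (0:ℚ) ≤ 1/(7*8^k) := by positivity
      linarith
    have h3 : s a ≤ 1052/1000 := by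
      refine (s_le a 9 (by norm_num) (by norm_num) ha2 {1,3,5,7} ?_).trans ?_
      · intro d hd hlt
        obtain ⟨hd, -⟩ := Nat.mem_divisors.1 hd
        have h2' : ¬ 2 ∣ d := fun h => by
          have := h.trans hd
          omega
        interval_cases d <;> simp_all
      · norm_num
    have h0 : 0 ≤ s a := Finset.sum_nonneg (fun _ _ => by positivity)
    calc s (2^k) * s a ≤ 8/7 * (1052/1000) := mul_le_mul h2 h3 h0 (by norm_num)
      _ ≤ 5/4 := by norm_num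
  have h3 : ((4 * ArithmeticFunction.sigma 3 m : ℕ) : ℚ) ≤ ((5 * m^3 : ℕ) : ℚ) := by
    push_cast
    rw [h1]
    have : (0:ℚ) ≤ (m:ℚ)^3 := by positivity
    nlinarith
  exact_mod_cast h3

lemma prime_sig (p : ℕ) (hp : p.Prime) : ArithmeticFunction.sigma 3 p = p^3 + 1 := by
  rw [ArithmeticFunction.sigma_apply, hp.sum_divisors]
  simp [add_comm]

/-- the key identity -/
lemma key_identity (n m p m' q : ℕ) (hp : p.Prime) (hq : q.Prime) (hpm : ¬ p ∣ m) (hqm : ¬ q ∣ m')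
    (hn : n = m * p) (hn' : n + 2 = m' * q)
    (h : ArithmeticFunction.sigma 3 n = ArithmeticFunction.sigma 3 (n+2)) :
    ArithmeticFunction.sigma 3 m * (p^3+1) = ArithmeticFunction.sigma 3 m' * (q^3+1) := by
  rw [hn', hn, ArithmeticFunction.isMultiplicative_sigma.map_mul_of_coprime
    ((Nat.Prime.coprime_iff_not_dvd hp).2 hpm).symm,
    ArithmeticFunction.isMultiplicative_sigma.map_mul_of_coprime
    ((Nat.Prime.coprime_iff_not_dvd hq).2 hqm).symm, prime_sig p hp, prime_sig q hq] at h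
  exact h

/-- for coprime `m, m'` the two densities differ -/
lemma dens_ne (m m' : ℕ) (hm : 0 < m) (hm' : 0 < m') (hco : Nat.Coprime m m')
    (h1 : ArithmeticFunction.sigma 3 m * m'^3 = ArithmeticFunction.sigma 3 m' * m^3) :
    m = 1 ∧ m' = 1 := by
  have key : ∀ a b : ℕ, 0 < a → 0 < b → Nat.Coprime a b →
      ArithmeticFunction.sigma 3 a * b^3 = ArithmeticFunction.sigma 3 b * a^3 → a = 1 := by
    intro a b ha hb hab he
    have hd : a^3 ∣ ArithmeticFunction.sigma 3 a * b^3 := he ▸ Dvd.intro_left _ rfl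
    have hd2 : a^3 ∣ ArithmeticFunction.sigma 3 a :=
      (Nat.Coprime.pow 3 3 hab).dvd_of_dvd_mul_right hd
    obtain ⟨c, hc⟩ := hd2
    by_contra hne
    have h3 := sig_gt a (by omega)
    have h4 := sig_le a ha
    have ha3 : 0 < a^3 := by positivity
    rw [hc] at h3 h4
    have : 1 < c := by
      by_contra hcc
      have : c = 0 ∨ c = 1 := by omega
      rcases this with rfl | rfl <;> omega
    nlinarith [Nat.mul_le_mul_left (a^3) this]
  exact ⟨key m m' hm hm' hco h1, key m' m hm' hm hco.symm h1.symm⟩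

/-- identity in `n` -/
lemma identity_n (n m p m' q : ℕ) (hp : p.Prime) (hq : q.Prime) (hpm : ¬ p ∣ m) (hqm : ¬ q ∣ m')
    (hn : n = m * p) (hn' : n + 2 = m' * q)
    (h : ArithmeticFunction.sigma 3 n = ArithmeticFunction.sigma 3 (n+2)) :
    ((ArithmeticFunction.sigma 3 m : ℕ) * (m':ℤ)^3 - (ArithmeticFunction.sigma 3 m' : ℕ) * (m:ℤ)^3)
      * (n:ℤ)^3 = (ArithmeticFunction.sigma 3 m' : ℕ) * (m:ℤ)^3 * (6*(n:ℤ)^2+12*n+8) +
        ((ArithmeticFunction.sigma 3 m' : ℕ) - (ArithmeticFunction.sigma 3 m : ℕ)) *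
          ((m:ℤ)^3 * (m':ℤ)^3) := by
  have h1 := key_identity n m p m' q hp hq hpm hqm hn hn' h
  generalize ArithmeticFunction.sigma 3 m = A at h1 ⊢
  generalize ArithmeticFunction.sigma 3 m' = B at h1 ⊢
  have h2 : (A:ℤ) * ((p:ℤ)^3+1) = B * ((q:ℤ)^3+1) := by exact_mod_cast h1
  have h3 : (n:ℤ) = m * p := by exact_mod_cast hn
  have h4 : (n:ℤ) + 2 = m' * q := by exact_mod_cast hn'
  have e : (6*(n:ℤ)^2+12*n+8) = ((n:ℤ)+2)^3 - (n:ℤ)^3 := by ring
  rw [e, h4, h3]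
  linear_combination (m:ℤ)^3 * (m':ℤ)^3 * h2

lemma size_bound (n m p m' q : ℕ) (hn8 : 8000 ≤ n) (hodd : n % 2 = 1)
    (hp : p.Prime) (hq : q.Prime) (hpm : ¬ p ∣ m) (hqm : ¬ q ∣ m')
    (hn : n = m * p) (hn' : n + 2 = m' * q)
    (h : ArithmeticFunction.sigma 3 n = ArithmeticFunction.sigma 3 (n+2)) :
    n ≤ 9 * (m * m')^3 := by
  have hid := identity_n n m p m' q hp hq hpm hqm hn hn' h
  have hm : 0 < m := by
    rcases Nat.eq_zero_or_pos m with h0 | h0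
    · rw [h0] at hn; omega
    · exact h0
  have hm' : 0 < m' := by
    rcases Nat.eq_zero_or_pos m' with h0 | h0
    · rw [h0] at hn'; omega
    · exact h0
  have hco : Nat.Coprime m m' := by
    have h1 : Nat.Coprime n (n+2) := by
      rw [Nat.coprime_self_add_right, Nat.coprime_comm, Nat.coprime_two_left, Nat.odd_iff]
      exact hodd
    rw [hn'] at h1
    have h2 : Nat.Coprime (m*p) (m'*q) := by rw [← hn]; exact h1
    exact (Nat.Coprime.coprime_mul_right h2).coprime_mul_right_right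
  have hA := sig_le m hm
  have hB := sig_le m' hm'
  have hA0 := sig_ge m hm
  have hB0 := sig_ge m' hm'
  have hne : ArithmeticFunction.sigma 3 m * m'^3 ≠ ArithmeticFunction.sigma 3 m' * m^3 := by
    intro he
    obtain ⟨rfl, rfl⟩ := dens_ne m m' hm hm' hco he
    simp at hid
    nlinarith [hid]
  generalize ArithmeticFunction.sigma 3 m = A at *
  generalize ArithmeticFunction.sigma 3 m' = B at *
  by_contra hcon
  push Not at hcon
  -- everything in ℤ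
  have hm3 : 1 ≤ m^3 := Nat.one_le_pow _ _ hm
  have hm3' : 1 ≤ m'^3 := Nat.one_le_pow _ _ hm'
  have e1 : (m*m')^3 = m^3*m'^3 := by ring
  rw [e1] at hcon
  have hX : 4 * (A * m'^3) ≤ 5 * (m^3 * m'^3) :=
    calc 4 * (A * m'^3) = 4 * A * m'^3 := by ring
      _ ≤ 5 * m^3 * m'^3 := Nat.mul_le_mul_right _ hA
      _ = _ := by ring
  have hY : 4 * (B * m^3) ≤ 5 * (m^3 * m'^3) :=
    calc 4 * (B * m^3) = 4 * B * m^3 := by ring
      _ ≤ 5 * m'^3 * m^3 := Nat.mul_le_mul_right _ hB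
      _ = _ := by ring
  have hA2 : 4 * A ≤ 5 * (m^3 * m'^3) :=
    hA.trans (Nat.mul_le_mul_left 5 (Nat.le_mul_of_pos_right _ (by omega)))
  have hB2 : 4 * B ≤ 5 * (m^3 * m'^3) :=
    hB.trans (Nat.mul_le_mul_left 5 (Nat.le_mul_of_pos_left _ (by omega)))
  have e2 : (m:ℤ)^3 * (m':ℤ)^3 = ((m^3*m'^3 : ℕ) : ℤ) := by push_cast; ring
  have e3 : (B:ℤ) * (m:ℤ)^3 = ((B * m^3 : ℕ) : ℤ) := by push_cast; ring
  have e4 : (A:ℤ) * (m':ℤ)^3 = ((A * m'^3 : ℕ) : ℤ) := by push_cast; ring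
  rw [e4, e3, e2] at hid
  generalize m^3*m'^3 = M at *
  generalize B * m^3 = Y at *
  generalize A * m'^3 = X at *
  have hM : 9 * (M:ℤ) < n := by exact_mod_cast hcon
  have hX' : 4 * (X:ℤ) ≤ 5 * M := by exact_mod_cast hX
  have hY' : 4 * (Y:ℤ) ≤ 5 * M := by exact_mod_cast hY
  have hA' : 4 * (A:ℤ) ≤ 5 * M := by exact_mod_cast hA2
  have hB' : 4 * (B:ℤ) ≤ 5 * M := by exact_mod_cast hB2
  have hM0 : (0:ℤ) ≤ M := by positivity
  have hY0 : (0:ℤ) ≤ Y := by positivity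
  have hA0' : (0:ℤ) ≤ A := by positivity
  have hB0' : (0:ℤ) ≤ B := by positivity
  have hn' : (8000:ℤ) ≤ n := by exact_mod_cast hn8
  have hn3 : (0:ℤ) < (n:ℤ)^3 := by positivity
  have hQ : (0:ℤ) ≤ 6*(n:ℤ)^2+12*n+8 := by positivity
  have hMn : (M:ℤ) ≤ n := by linarith
  have h5 : 9 * ((M:ℤ) * M) ≤ n * n := by
    have a1 := mul_le_mul_of_nonneg_right hM.le hM0
    have a2 := mul_le_mul_of_nonneg_left hMn (by linarith : (0:ℤ) ≤ n)
    linarith
  have h6 : 8000 * (n:ℤ)^2 ≤ (n:ℤ)^3 := by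
    have := mul_le_mul_of_nonneg_right hn' (sq_nonneg (n:ℤ))
    linarith [this, pow_succ (n:ℤ) 2, mul_comm ((n:ℤ)^2) (n:ℤ)]
  have h7 : 8000 * (n:ℤ) ≤ (n:ℤ)^2 := by
    have := mul_le_mul_of_nonneg_right hn' (by linarith : (0:ℤ) ≤ n)
    linarith [this, sq (n:ℤ)]
  have h8 : (n:ℤ) * n = (n:ℤ)^2 := (sq _).symm
  rcases (by omega : (1:ℤ) ≤ (X:ℤ) - Y ∨ (X:ℤ) - Y ≤ -1) with hc | hc
  · have h1 : (n:ℤ)^3 ≤ ((X:ℤ) - Y) * (n:ℤ)^3 := le_mul_of_one_le_left hn3.le hc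
    have h2 : 4 * Y * (6*(n:ℤ)^2+12*n+8) ≤ 5 * M * (6*(n:ℤ)^2+12*n+8) :=
      mul_le_mul_of_nonneg_right hY' hQ
    have h3 : 4 * ((B:ℤ) - A) * M ≤ 5 * M * M :=
      mul_le_mul_of_nonneg_right (by linarith) hM0
    have h4 : 9 * (M:ℤ) * (6*(n:ℤ)^2+12*n+8) ≤ n * (6*(n:ℤ)^2+12*n+8) :=
      mul_le_mul_of_nonneg_right hM.le hQ
    have e5 : (n:ℤ) * (6*(n:ℤ)^2+12*n+8) = 6*(n:ℤ)^3 + 12*(n:ℤ)^2 + 8*n := by ring
    rw [e5] at h4
    generalize (6*(n:ℤ)^2+12*n+8) = Q at *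
    generalize (n:ℤ)^3 = n3 at *
    generalize (n:ℤ)^2 = n2 at *
    have h9 : 4 * n3 ≤ 5 * M * Q + 5 * M * M := by linarith
    linarith
  · have h1 : ((X:ℤ) - Y) * (n:ℤ)^3 ≤ - (n:ℤ)^3 := by
      have := mul_le_mul_of_nonneg_right hc hn3.le
      linarith
    have h2 : (0:ℤ) ≤ (Y:ℤ) * (6*(n:ℤ)^2+12*n+8) := mul_nonneg hY0 hQ
    have h3 : 4 * ((A:ℤ) - B) * M ≤ 5 * M * M :=
      mul_le_mul_of_nonneg_right (by linarith) hM0
    generalize (6*(n:ℤ)^2+12*n+8) = Q at *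
    generalize (n:ℤ)^3 = n3 at *
    generalize (n:ℤ)^2 = n2 at *
    linarith

end H3.SigThree
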